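import Mathlib
import Pool.Agent.Lib_MP_19f4d1_co.Defs
import Pool.Agent.Lib_MP_19f4d1_co.Proof

set_option autoImplicit false

namespace Pool.Agent.Results.MP_19f4d1_co.NiceNonprime

open Pool.Agent.Lib_MP_19f4d1_co

/-- For every nice group `G` whose order is not prime (for instance `G = Z/4`), there are finite
free `G`-simplicial complexes `K₁`, `K₂` with `ind K₁ = ind K₂ = 2` but `ind (K₁ × K₂) = 1`. -/
theorem result (G : Type) [Group G] [Fintype G] (hG : IsNice G) (hp : ¬ (Nat.card G).Prime) :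
    ∃ K₁ K₂ : FreeComplex G, ind G K₁.Space = 2 ∧ ind G K₂.Space = 2 ∧
      ind G (K₁.Space × K₂.Space) = 1 := by
  rcases hG with ⟨hcyc, p, k, hp', hk, hcard⟩ | ⟨m, hm, ⟨e⟩⟩
  · have hk2 : 2 ≤ k := by
      by_contra hcon
      have : k = 1 := by omega
      rw [this, pow_one] at hcard
      rw [hcard] at hp
      exact hp hp'
    have : NeZero p := ⟨hp'.ne_zero⟩
    obtain ⟨c, z, hD⟩ := data_of_cyclic hcyc hp' hk2 hcard
    exact main_of_data hD
  · obtain ⟨c, z, hD⟩ := data_of_quaternion hm e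
    exact main_of_data hD

end Pool.Agent.Results.MP_19f4d1_co.NiceNonprime
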